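import Pool.Agent.Y641.TH.Cod

/-!
Project TH: decoding of the codes of hereditarily decomposable structures (TDB).
-/

set_option autoImplicit false

namespace Pool.Agent.Y641.TH

open Set
open Pool.Agent.H566P (XG Isom)
open Pool.Agent.Y560.TF (TO)
open Pool.Agent.Y560.TH

variable {Γ : Type}

theorem nth_one (p : ℕ → Prop) (k : ℕ) (h : ∀ b, p b ↔ b = k) : Nat.nth p 0 = k := by
  have h1 : p = fun b => b = k := funext fun b => propext (h b)
  rw [h1, Nat.nth_zero]
  exact csInf_singleton k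

section dec

variable {x : XB Γ} {f : SS → ℕ} {y : XG Γ}

theorem lec_iff (hc : CodT x f y) (s t : SS) : lec y (f s) (f t) ↔ US x.1 t ⊆ US x.1 s := by
  unfold lec
  rw [hc.eq, hc.lt]
  constructor
  · rintro (h | h)
    · exact h.symm.subset
    · exact h.1
  · intro h
    by_cases h1 : US x.1 s = US x.1 t
    · exact Or.inl h1
    · exact Or.inr (h.ssubset_of_ne (Ne.symm h1))

theorem lec_leaf (hc : CodT x f y) (s : SS) (u : ℕ) : lec y (f s) (f (u, u, 0)) ↔ u ∈ US x.1 s := by
  rw [lec_iff hc, US_leaf, Set.singleton_subset_iff]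

/-- the leaves -/
theorem leaves (hc : CodT x f y) : ∃ θ : Equiv.Perm ℕ, ∀ a, enl y a = f (θ a, θ a, 0) := by
  have finj : Function.Injective fun u : ℕ => f (u, u, 0) := by
    intro u v huv
    have h1 := (hc.eq _ _).1 huv
    rw [US_leaf, US_leaf] at h1
    exact Set.singleton_injective h1
  have hleaf : ∀ u, y.2.2 0 (f (u, u, 0)) = true := by
    intro u
    rw [hc.pr]
    show (US x.1 (u, u, 0)).Subsingleton
    rw [US_leaf]
    exact Set.subsingleton_singleton
  have hinf : (Set.ofPred fun m => y.2.2 0 m = true).Infinite := by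
    refine Set.infinite_of_injective_forall_mem (f := fun a : ℕ => f (a, a, 0)) finj ?_
    intro a
    exact hleaf a
  have hen : ∀ a, ∃ b, enl y a = f (b, b, 0) := by
    intro a
    have h1 : y.2.2 0 (enl y a) = true := Nat.nth_mem_of_infinite hinf a
    obtain ⟨s, hs⟩ := hc.sur (enl y a)
    rw [← hs, hc.pr] at h1
    have h2 : (US x.1 s).Subsingleton := h1
    refine ⟨s.1, ?_⟩
    rw [← hs, hc.eq]
    exact (US_sub_iff s).1 h2
  choose θ0 hθ0 using hen
  have hbij : Function.Bijective θ0 := by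
    constructor
    · intro a b hab
      apply Nat.nth_injective hinf
      show enl y a = enl y b
      rw [hθ0, hθ0, hab]
    · intro b
      have h1 : f (b, b, 0) ∈ Set.range (Nat.nth fun m => y.2.2 0 m = true) := by
        rw [Nat.range_nth_of_infinite hinf]
        exact hleaf b
      obtain ⟨a, ha⟩ := h1
      refine ⟨a, ?_⟩
      have h2 : enl y a = f (b, b, 0) := ha
      rw [hθ0] at h2
      exact finj h2
  exact ⟨Equiv.ofBijective θ0 hbij, hθ0⟩

variable (hF : TDF x.1) (hc : CodT x f y)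

include hF hc

theorem ndy_iff {u v : ℕ} (huv : u ≠ v) (K : ℕ) :
    ndy y (f (u, u, 0)) (f (v, v, 0)) K ↔ K = f (u, v, 0) := by
  have key : ∀ s, ndy y (f (u, u, 0)) (f (v, v, 0)) (f s) ↔
      (∃ a b, a ≠ b ∧ US x.1 s = Nd x.1 a b) ∧ u ∈ US x.1 s ∧ v ∈ US x.1 s ∧
      ∀ s', (∃ a b, a ≠ b ∧ US x.1 s' = Nd x.1 a b) → u ∈ US x.1 s' → v ∈ US x.1 s' →
        US x.1 s ⊆ US x.1 s' := by
    intro s
    unfold ndy
    rw [hc.pr, lec_leaf hc, lec_leaf hc]
    refine and_congr Iff.rfl (and_congr Iff.rfl (and_congr Iff.rfl ?_))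
    constructor
    · intro h s' h1 h2 h3
      exact (lec_iff hc _ _).1 (h (f s') ((hc.pr _ _).2 h1) ((lec_leaf hc _ _).2 h2)
        ((lec_leaf hc _ _).2 h3))
    · intro h K' h1 h2 h3
      obtain ⟨s', rfl⟩ := hc.sur K'
      exact (lec_iff hc _ _).2 (h s' ((hc.pr _ _).1 h1) ((lec_leaf hc _ _).1 h2)
        ((lec_leaf hc _ _).1 h3))
  obtain ⟨s, rfl⟩ := hc.sur K
  rw [key, hc.eq, US_0]
  constructor
  · rintro ⟨⟨a, b, hab, h1⟩, h2, h3, h4⟩
    apply Set.Subset.antisymm
    · have h5 := h4 (u, v, 0) ⟨u, v, huv, US_0 u v⟩ (by rw [US_0]; exact left_mem_Nd u v)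
        (by rw [US_0]; exact right_mem_Nd u v)
      rwa [US_0] at h5
    · rw [h1] at h2 h3 ⊢
      exact hF.node u v a b huv hab h2 h3
  · intro h
    rw [h]
    refine ⟨⟨u, v, huv, rfl⟩, left_mem_Nd u v, right_mem_Nd u v, ?_⟩
    rintro s' ⟨a, b, hab, h1⟩ h2 h3
    rw [h1] at h2 h3 ⊢
    exact hF.node u v a b huv hab h2 h3

theorem chy_iff {u v : ℕ} (huv : u ≠ v) (V : ℕ) :
    chy y (f (u, u, 0)) (f (v, v, 0)) V ↔ V = f (u, v, 1) := by
  have key : ∀ s, chy y (f (u, u, 0)) (f (v, v, 0)) (f s) ↔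
      (∃ a b, a ≠ b ∧ US x.1 s = Ch x.1 a b) ∧ u ∈ US x.1 s ∧ v ∉ US x.1 s ∧
      ∀ s', (∃ a b, a ≠ b ∧ US x.1 s' = Ch x.1 a b) → u ∈ US x.1 s' → v ∉ US x.1 s' →
        US x.1 s' ⊆ US x.1 s := by
    intro s
    unfold chy
    rw [hc.pr, lec_leaf hc, lec_leaf hc]
    refine and_congr Iff.rfl (and_congr Iff.rfl (and_congr Iff.rfl ?_))
    constructor
    · intro h s' h1 h2 h3
      exact (lec_iff hc _ _).1 (h (f s') ((hc.pr _ _).2 h1) ((lec_leaf hc _ _).2 h2)
        (fun h4 => h3 ((lec_leaf hc _ _).1 h4)))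
    · intro h K' h1 h2 h3
      obtain ⟨s', rfl⟩ := hc.sur K'
      exact (lec_iff hc _ _).2 (h s' ((hc.pr _ _).1 h1) ((lec_leaf hc _ _).1 h2)
        (fun h4 => h3 ((lec_leaf hc _ _).2 h4)))
  obtain ⟨s, rfl⟩ := hc.sur V
  rw [key, hc.eq, US_1]
  constructor
  · rintro ⟨⟨a, b, hab, h1⟩, h2, h3, h4⟩
    apply Set.Subset.antisymm
    · rw [h1] at h2 h3 ⊢
      exact hF.child u v a b huv hab h2 h3
    · have h5 := h4 (u, v, 1) ⟨u, v, huv, US_1 u v⟩ (by rw [US_1]; exact left_mem_Ch u v)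
        (by rw [US_1]; exact right_not_mem_Ch huv)
      rwa [US_1] at h5
  · intro h
    rw [h]
    refine ⟨⟨u, v, huv, rfl⟩, left_mem_Ch u v, right_not_mem_Ch huv, ?_⟩
    rintro s' ⟨a, b, hab, h1⟩ h2 h3
    rw [h1] at h2 h3 ⊢
    exact hF.child u v a b huv hab h2 h3

theorem fny_iff {u v : ℕ} (huv : u ≠ v) (s : SS) :
    fny y (f (u, u, 0)) (f (v, v, 0)) (f s) ↔ (∃ a b, bf x.1 b a ∧ US x.1 s = Fs x.1 a b) ∧
      v ∈ US x.1 s ∧ u ∉ US x.1 s ∧ Ch x.1 v u ⊆ US x.1 s := by
  unfold fny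
  rw [hc.pr, lec_leaf hc, lec_leaf hc]
  refine and_congr Iff.rfl (and_congr Iff.rfl (and_congr Iff.rfl ?_))
  constructor
  · intro h
    have h1 := (lec_iff hc _ _).1 (h (f (v, u, 1)) ((chy_iff hF hc huv.symm _).2 rfl))
    rwa [US_1] at h1
  · intro h V hV
    rw [chy_iff hF hc huv.symm] at hV
    rw [hV, lec_iff hc, US_1]
    exact h

theorem fny_of_bf {u v : ℕ} (h : bf x.1 u v) :
    fny y (f (u, u, 0)) (f (v, v, 0)) (f (v, u, 2)) := by
  have huv : u ≠ v := by
    rintro rfl
    exact bf_irr _ h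
  rw [fny_iff hF hc huv, US_2]
  exact ⟨⟨v, u, h, rfl⟩, hF.fin1 u v h⟩

theorem fny_fin {u v : ℕ} (huv : u ≠ v) {s : SS}
    (h : fny y (f (u, u, 0)) (f (v, v, 0)) (f s)) : bf x.1 u v ∧ Fs x.1 v u ⊆ US x.1 s := by
  rw [fny_iff hF hc huv] at h
  obtain ⟨⟨a, b, hab, h1⟩, h2, h3, h4⟩ := h
  rw [h1] at h2 h3 h4 ⊢
  exact hF.fin2 u v a b huv hab h2 h3 h4

omit hF hc in
theorem fny_ne {a b U : ℕ} (h : fny y a b U) : a ≠ b := by
  rintro rfl
  exact h.2.2.1 h.2.1

theorem bfy_iff (u v : ℕ) : bfy y (f (u, u, 0)) (f (v, v, 0)) ↔ bf x.1 u v := by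
  constructor
  · rintro ⟨U, hU⟩
    have huv : u ≠ v := by
      rintro rfl
      exact fny_ne hU rfl
    obtain ⟨s, rfl⟩ := hc.sur U
    exact (fny_fin hF hc huv hU).1
  · exact fun h => ⟨_, fny_of_bf hF hc h⟩

theorem fsy_iff (u v U : ℕ) :
    fsy y (f (u, u, 0)) (f (v, v, 0)) U ↔ bf x.1 u v ∧ U = f (v, u, 2) := by
  constructor
  · rintro ⟨h1, h2⟩
    have h3 : bf x.1 u v := (bfy_iff hF hc u v).1 ⟨U, h1⟩
    refine ⟨h3, ?_⟩
    have huv : u ≠ v := by
      rintro rfl
      exact fny_ne h1 rfl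
    obtain ⟨s, rfl⟩ := hc.sur U
    rw [hc.eq, US_2]
    apply Set.Subset.antisymm
    · have h4 := (lec_iff hc _ _).1 (h2 _ (fny_of_bf hF hc h3))
      rwa [US_2] at h4
    · exact (fny_fin hF hc huv h1).2
  · rintro ⟨h1, rfl⟩
    refine ⟨fny_of_bf hF hc h1, fun U' hU' => ?_⟩
    have huv : u ≠ v := by
      rintro rfl
      exact bf_irr _ h1
    obtain ⟨s, rfl⟩ := hc.sur U'
    rw [lec_iff hc, US_2]
    exact (fny_fin hF hc huv hU').2

theorem fyr_iff {θ : Equiv.Perm ℕ} (hθ : ∀ a, enl y a = f (θ a, θ a, 0)) (s : SS) (m : ℕ) :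
    fyr y s m ↔ m = f (θ s.1, θ s.2.1, s.2.2) := by
  obtain ⟨u, v, k⟩ := s
  have hne : ∀ a b : ℕ, a ≠ b → θ a ≠ θ b := fun a b h => θ.injective.ne h
  unfold fyr
  simp only [hθ]
  have hk : k = 0 ∨ k = 1 ∨ k = 2 := by
    fin_cases k
    · exact Or.inl rfl
    · exact Or.inr (Or.inl rfl)
    · exact Or.inr (Or.inr rfl)
  rcases hk with rfl | rfl | rfl
  · constructor
    · rintro (⟨-, h1, h2⟩ | ⟨-, h1, h2⟩ | ⟨h0, -⟩ | ⟨h0, -⟩ | ⟨h0, -⟩ | ⟨h0, -⟩)
      · rw [h2, h1]
      · exact (ndy_iff hF hc (hne _ _ h1) _).1 h2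
      · exact absurd h0 (by decide)
      · exact absurd h0 (by decide)
      · exact absurd h0 (by decide)
      · exact absurd h0 (by decide)
    · intro h
      by_cases huv : u = v
      · left
        refine ⟨rfl, huv, ?_⟩
        rw [h, huv]
      · right
        left
        exact ⟨rfl, huv, (ndy_iff hF hc (hne _ _ huv) _).2 h⟩
  · constructor
    · rintro (⟨h0, -⟩ | ⟨h0, -⟩ | ⟨-, h1, h2⟩ | ⟨-, h1, h2⟩ | ⟨h0, -⟩ | ⟨h0, -⟩)
      · exact absurd h0 (by decide)
      · exact absurd h0 (by decide)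
      · rw [h2, h1, hc.eq, US_leaf, US_1, Ch_self]
      · exact (chy_iff hF hc (hne _ _ h1) _).1 h2
      · exact absurd h0 (by decide)
      · exact absurd h0 (by decide)
    · intro h
      by_cases huv : u = v
      · right
        right
        left
        refine ⟨rfl, huv, ?_⟩
        rw [h, ← huv, hc.eq, US_leaf, US_1, Ch_self]
      · right
        right
        right
        left
        exact ⟨rfl, huv, (chy_iff hF hc (hne _ _ huv) _).2 h⟩
  · rw [bfy_iff hF hc, fsy_iff hF hc]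
    have hU : ¬ bf x.1 (θ v) (θ u) → f (θ u, θ u, 0) = f (θ u, θ v, 2) := by
      intro h
      rw [hc.eq, US_leaf, US_2, Fs_of_not h]
    constructor
    · rintro (⟨h0, -⟩ | ⟨h0, -⟩ | ⟨h0, -⟩ | ⟨h0, -⟩ | ⟨-, h1, h2⟩ | ⟨-, h1, h2⟩)
      · exact absurd h0 (by decide)
      · exact absurd h0 (by decide)
      · exact absurd h0 (by decide)
      · exact absurd h0 (by decide)
      · rw [h2, hU h1]
      · exact h2
    · intro h
      by_cases huv : bf x.1 (θ v) (θ u)
      · right
        right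
        right
        right
        right
        exact ⟨rfl, huv, h⟩
      · right
        right
        right
        right
        left
        exact ⟨rfl, huv, by rw [h, hU huv]⟩

/-- decoding -/
theorem cod_dec : ∃ θ, IsoB θ (DT y) x ∧ CodT (DT y) (fy y) y := by
  obtain ⟨θ, hθ⟩ := leaves hc
  have hne : ∀ a b : ℕ, a ≠ b → θ a ≠ θ b := fun a b h => θ.injective.ne h
  have hfy : fy y = fun s => f (θ s.1, θ s.2.1, s.2.2) := by
    funext s
    exact nth_one _ _ (fyr_iff hF hc hθ s)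
  have hiso : IsoB θ (DT y) x := by
    refine ⟨fun i m n => ?_, fun γ m => ?_, fun i m => ?_⟩
    · have h1 : ((m = n ∧ y.2.2 (4 * i + 7) (enl y m) = true) ∨
          (m ≠ n ∧ ∃ K, ndy y (enl y m) (enl y n) K ∧
          ((bfy y (enl y n) (enl y m) ∧ y.2.2 (4 * i + 5) K = true) ∨
          (¬ bfy y (enl y n) (enl y m) ∧ y.2.2 (4 * i + 4) K = true)))) ↔
          (DT y).1 i m n = true := by
        unfold DT
        simp only [decide_eq_true_eq]
      rw [Bool.eq_iff_iff, ← h1]
      rw [hθ, hθ, bfy_iff hF hc]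
      by_cases hmn : m = n
      · subst hmn
        rw [hc.pr]
        have h2 : PrS x (θ m, θ m, 0) (4 * i + 7) ↔ x.1 i (θ m) (θ m) = true := by
          have e1 : (4 * i + 3) % 4 = 3 := by omega
          have e2 : (4 * i + 3) / 4 = i := by omega
          have h3 : PrS x (θ m, θ m, 0) ((4 * i + 3) + 4) ↔ x.1 i (θ m) (θ m) = true := by
            rw [PrS_four]
            unfold Pr4
            rw [e1, e2, US_leaf]
            constructor
            · rintro (⟨h, -⟩ | ⟨h, -⟩ | ⟨h, -⟩ | ⟨-, -, h⟩)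
              · exact absurd h (by decide)
              · exact absurd h (by decide)
              · exact absurd h (by decide)
              · exact h
            · exact fun h => Or.inr (Or.inr (Or.inr ⟨rfl, Set.subsingleton_singleton, h⟩))
          exact h3
        rw [h2]
        constructor
        · exact fun h => Or.inl ⟨rfl, h⟩
        · rintro (⟨-, h⟩ | ⟨h, -⟩)
          · exact h
          · exact absurd rfl h
      · have hmn' : θ m ≠ θ n := hne _ _ hmn
        have h5 : bf x.1 (θ n) (θ m) →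
            (y.2.2 (4 * i + 5) (f (θ m, θ n, 0)) = true ↔ x.1 i (θ m) (θ n) = true) := by
          intro hb
          rw [hc.pr]
          have e1 : (4 * i + 1) % 4 = 1 := by omega
          have e2 : (4 * i + 1) / 4 = i := by omega
          have h3 : PrS x (θ m, θ n, 0) ((4 * i + 1) + 4) ↔ x.1 i (θ m) (θ n) = true := by
            rw [PrS_four]
            unfold Pr4
            rw [e1, e2, US_0]
            constructor
            · rintro (⟨h, -⟩ | ⟨-, u, v, huv, h2, h3, h4⟩ | ⟨h, -⟩ | ⟨h, -⟩)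
              · exact absurd h (by decide)
              · have h6 := hF.col (θ n) (θ m) u v hmn'.symm huv (by rw [Nd_comm, h2])
                  (fun h7 => bf_asym h7 hb) h3 i
                rw [h6.2]
                exact h4
              · exact absurd h (by decide)
              · exact absurd h (by decide)
            · exact fun h => Or.inr (Or.inl ⟨rfl, θ n, θ m, hmn'.symm, Nd_comm _ _,
                fun h7 => bf_asym h7 hb, h⟩)
          exact h3
        have h4 : ¬ bf x.1 (θ n) (θ m) →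
            (y.2.2 (4 * i + 4) (f (θ m, θ n, 0)) = true ↔ x.1 i (θ m) (θ n) = true) := by
          intro hb
          rw [hc.pr]
          have e1 : (4 * i) % 4 = 0 := by omega
          have e2 : (4 * i) / 4 = i := by omega
          have h3 : PrS x (θ m, θ n, 0) ((4 * i) + 4) ↔ x.1 i (θ m) (θ n) = true := by
            rw [PrS_four]
            unfold Pr4
            rw [e1, e2, US_0]
            constructor
            · rintro (⟨-, u, v, huv, h2, h3, h4⟩ | ⟨h, -⟩ | ⟨h, -⟩ | ⟨h, -⟩)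
              · have h6 := hF.col (θ m) (θ n) u v hmn' huv h2 hb h3 i
                rw [h6.1]
                exact h4
              · exact absurd h (by decide)
              · exact absurd h (by decide)
              · exact absurd h (by decide)
            · exact fun h => Or.inl ⟨rfl, θ m, θ n, hmn', rfl, hb, h⟩
          exact h3
        constructor
        · intro h
          refine Or.inr ⟨hmn, f (θ m, θ n, 0), (ndy_iff hF hc hmn' _).2 rfl, ?_⟩
          by_cases hb : bf x.1 (θ n) (θ m)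
          · exact Or.inl ⟨hb, (h5 hb).2 h⟩
          · exact Or.inr ⟨hb, (h4 hb).2 h⟩
        · rintro (⟨h, -⟩ | ⟨-, K, hK, h⟩)
          · exact absurd h hmn
          · rw [ndy_iff hF hc hmn'] at hK
            subst hK
            rcases h with ⟨hb, h⟩ | ⟨hb, h⟩
            · exact (h5 hb).1 h
            · exact (h4 hb).1 h
    · have h1 : ∀ k, enl y k = y.2.1 γ (enl y m) ↔ k = θ.symm (x.2.1 γ (θ m)) := by
        intro k
        rw [Equiv.eq_symm_apply, hθ, hθ, hc.act, hc.eq, US_leaf, US_leaf,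
          Set.singleton_eq_singleton_iff]
      have h2 : (DT y).2.1 γ m = θ.symm (x.2.1 γ (θ m)) := nth_one _ _ h1
      rw [h2, θ.apply_symm_apply]
    · show x.2.2 i (θ m) = y.2.2 (4 * i + 6) (enl y m)
      rw [Bool.eq_iff_iff, hθ, hc.pr]
      have e1 : (4 * i + 2) % 4 = 2 := by omega
      have e2 : (4 * i + 2) / 4 = i := by omega
      have h3 : PrS x (θ m, θ m, 0) ((4 * i + 2) + 4) ↔ x.2.2 i (θ m) = true := by
        rw [PrS_four]
        unfold Pr4
        rw [e1, e2, US_leaf]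
        constructor
        · rintro (⟨h, -⟩ | ⟨h, -⟩ | ⟨-, -, h⟩ | ⟨h, -⟩)
          · exact absurd h (by decide)
          · exact absurd h (by decide)
          · exact h
          · exact absurd h (by decide)
        · exact fun h => Or.inr (Or.inr (Or.inl ⟨rfl, Set.subsingleton_singleton, h⟩))
      exact h3.symm
  refine ⟨θ, hiso, ?_⟩
  rw [hfy]
  exact cod_pull hc hiso

end dec

/-- the coding part -/
theorem t_TDB : S_TDB := by
  intro hA Γ _
  exact ⟨fun x h => cod_ex h, fun x f y h hc => cod_semi (hA _ h.dec) h hc,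
    fun x f y h hc => cod_dec (hA _ h.dec) hc, fun x f y f' y' h h' => cod_uni h h',
    fun x f y y' σ h hσ => cod_trans h hσ, fun x x' f y θ h hθ => cod_pull h hθ⟩

end Pool.Agent.Y641.TH
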