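import Pool.Agent.Y560.TH.TDd

/-!
Project TH: the coding of a hereditarily decomposable structure by a semilinear order (TDB).
-/

set_option autoImplicit false

namespace Pool.Agent.Y641.TH

open Set
open Pool.Agent.H566P (XG Isom)
open Pool.Agent.Y560.TF (TO)
open Pool.Agent.H533R2.VO (RS)
open Pool.Agent.H533R2.VS (act)
open Pool.Agent.W875.TS (dm dm_refl dm_irr dm_symm dm_act)
open Pool.Agent.Y560.TH

/-! ### The sets -/

section sets

variable {r : ℕ → ℕ → ℕ → Bool}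

theorem cn_refl {u w : ℕ} (h : u ≠ w) : cn r u u w := dm_refl h

theorem cn_irr (u v : ℕ) : ¬ cn r u v u := dm_irr u v

theorem cn_symm {u v w : ℕ} (h : cn r u v w) : cn r v u w := dm_symm h

theorem cn_irr2 (u v : ℕ) : ¬ cn r u v v := fun h => cn_irr v u (cn_symm h)

theorem bf_irr (u : ℕ) : ¬ bf r u u := by
  rintro ⟨i, -, h1, h2⟩
  rw [h1] at h2
  exact absurd h2 (by decide)

theorem bf_asym {u v : ℕ} (h1 : bf r u v) (h2 : bf r v u) : False := by
  obtain ⟨i, a1, a2, a3⟩ := h1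
  obtain ⟨j, b1, b2, b3⟩ := h2
  rcases lt_trichotomy i j with h | h | h
  · have := b1 i h
    rw [a2, a3] at this
    exact absurd this (by decide)
  · subst h
    rw [a2] at b3
    exact absurd b3 (by decide)
  · have := a1 j h
    rw [b2, b3] at this
    exact absurd this (by decide)

theorem Nd_comm (u v : ℕ) : Nd r u v = Nd r v u := by
  ext w
  exact not_congr ⟨cn_symm, cn_symm⟩

theorem left_mem_Nd (u v : ℕ) : u ∈ Nd r u v := cn_irr u v

theorem right_mem_Nd (u v : ℕ) : v ∈ Nd r u v := cn_irr2 u v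

theorem Nd_self (u : ℕ) : Nd r u u = {u} := by
  ext w
  constructor
  · intro h
    by_contra hne
    exact h (cn_refl fun h1 => hne h1.symm)
  · intro h
    have h1 : w = u := h
    rw [h1]
    exact left_mem_Nd u u

theorem left_mem_Ch (u v : ℕ) : u ∈ Ch r u v := Or.inl rfl

theorem right_not_mem_Ch {u v : ℕ} (h : u ≠ v) : v ∉ Ch r u v := by
  rintro (h1 | h1)
  · exact h h1.symm
  · exact cn_irr2 u v h1

theorem Ch_self (u : ℕ) : Ch r u u = {u} := by
  ext w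
  constructor
  · rintro (h | h)
    · exact h
    · exact absurd h (cn_irr u w)
  · exact fun h => Or.inl h

theorem left_mem_Fs (u v : ℕ) : u ∈ Fs r u v := Or.inl rfl

theorem Fs_of_not {u v : ℕ} (h : ¬ bf r v u) : Fs r u v = {u} := by
  ext w
  constructor
  · rintro (h1 | h1)
    · exact h1
    · exact absurd h1.1 h
  · exact fun h1 => Or.inl h1

theorem US_0 (u v : ℕ) : US r (u, v, 0) = Nd r u v := if_pos rfl

theorem US_1 (u v : ℕ) : US r (u, v, 1) = Ch r u v := by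
  have h1 : ¬ (1 : Fin 3) = 0 := by decide
  show (if (1 : Fin 3) = 0 then Nd r u v else if (1 : Fin 3) = 1 then Ch r u v else Fs r u v) = _
  rw [if_neg h1, if_pos rfl]

theorem US_2 (u v : ℕ) : US r (u, v, 2) = Fs r u v := by
  have h1 : ¬ (2 : Fin 3) = 0 := by decide
  have h2 : ¬ (2 : Fin 3) = 1 := by decide
  show (if (2 : Fin 3) = 0 then Nd r u v else if (2 : Fin 3) = 1 then Ch r u v else Fs r u v) = _
  rw [if_neg h1, if_neg h2]

theorem mem_US (s : SS) : s.1 ∈ US r s := by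
  unfold US
  split_ifs
  · exact left_mem_Nd _ _
  · exact left_mem_Ch _ _
  · exact left_mem_Fs _ _

theorem US_leaf (u : ℕ) : US r (u, u, 0) = {u} := by rw [US_0, Nd_self]

theorem US_sub_iff (s : SS) : (US r s).Subsingleton ↔ US r s = US r (s.1, s.1, 0) := by
  rw [US_leaf]
  constructor
  · exact fun h => h.eq_singleton_of_mem (mem_US s)
  · exact fun h => by
      rw [h]
      exact Set.subsingleton_singleton

end sets

/-! ### Equivariance -/

section equi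

variable {r r' : ℕ → ℕ → ℕ → Bool} {θ : Equiv.Perm ℕ}

theorem cn_equi (h : ∀ i m n, r i (θ m) (θ n) = r' i m n) (u v w : ℕ) :
    cn r' u v w ↔ cn r (θ u) (θ v) (θ w) := by
  have h1 : bn r' = act θ.symm (bn r) := by
    funext i t
    exact (h i (t 0) (t 1)).symm
  unfold cn
  rw [h1]
  exact dm_act θ.symm (bn r) u v w

theorem bf_equi (h : ∀ i m n, r i (θ m) (θ n) = r' i m n) (u v : ℕ) :
    bf r' u v ↔ bf r (θ u) (θ v) := by
  unfold bf
  simp only [h]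

theorem Nd_equi (h : ∀ i m n, r i (θ m) (θ n) = r' i m n) (u v : ℕ) :
    Nd r' u v = θ ⁻¹' Nd r (θ u) (θ v) := by
  ext w
  exact not_congr (cn_equi h u v w)

theorem Ch_equi (h : ∀ i m n, r i (θ m) (θ n) = r' i m n) (u v : ℕ) :
    Ch r' u v = θ ⁻¹' Ch r (θ u) (θ v) := by
  ext w
  exact or_congr θ.injective.eq_iff.symm (cn_equi h u w v)

theorem Fs_equi (h : ∀ i m n, r i (θ m) (θ n) = r' i m n) (u v : ℕ) :
    Fs r' u v = θ ⁻¹' Fs r (θ u) (θ v) := by
  ext w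
  exact or_congr θ.injective.eq_iff.symm (and_congr (bf_equi h v u) (and_congr
    (not_congr (cn_equi h u v w)) (or_congr (cn_equi h u w v) (bf_equi h u w))))

/-- the action on the index set -/
def ac (g : ℕ → ℕ) (s : SS) : SS := (g s.1, g s.2.1, s.2.2)

theorem US_equi (h : ∀ i m n, r i (θ m) (θ n) = r' i m n) (s : SS) :
    US r' s = θ ⁻¹' US r (ac θ s) := by
  unfold US ac
  simp only
  split_ifs
  · exact Nd_equi h _ _
  · exact Ch_equi h _ _
  · exact Fs_equi h _ _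

theorem pre_inj {A B : Set ℕ} : (θ ⁻¹' A = θ ⁻¹' B) ↔ A = B :=
  (Set.preimage_injective.2 θ.surjective).eq_iff

theorem pre_ssub {A B : Set ℕ} : (θ ⁻¹' A ⊂ θ ⁻¹' B) ↔ A ⊂ B := by
  rw [ssubset_iff_subset_ne, ssubset_iff_subset_ne, Ne, Ne, pre_inj,
    Set.preimage_subset_preimage_iff (by rw [θ.surjective.range_eq]; exact Set.subset_univ _)]

theorem pre_subs {A : Set ℕ} : (θ ⁻¹' A).Subsingleton ↔ A.Subsingleton := by
  constructor
  · intro h a ha b hb
    have h1 := h (show θ.symm a ∈ θ ⁻¹' A by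
      show θ (θ.symm a) ∈ A
      rwa [θ.apply_symm_apply]) (show θ.symm b ∈ θ ⁻¹' A by
      show θ (θ.symm b) ∈ A
      rwa [θ.apply_symm_apply])
    exact θ.symm.injective h1
  · exact fun h => h.preimage θ.injective

theorem US_eq_equi (h : ∀ i m n, r i (θ m) (θ n) = r' i m n) (s t : SS) :
    US r' s = US r' t ↔ US r (ac θ s) = US r (ac θ t) := by
  rw [US_equi h, US_equi h, pre_inj]

theorem US_lt_equi (h : ∀ i m n, r i (θ m) (θ n) = r' i m n) (s t : SS) :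
    US r' s ⊂ US r' t ↔ US r (ac θ s) ⊂ US r (ac θ t) := by
  rw [US_equi h, US_equi h, pre_ssub]

theorem ex2_equi {P : ℕ → ℕ → Prop} : (∃ u v, P u v) ↔ ∃ u v, P (θ u) (θ v) := by
  constructor
  · rintro ⟨u, v, h⟩
    refine ⟨θ.symm u, θ.symm v, ?_⟩
    rwa [θ.apply_symm_apply, θ.apply_symm_apply]
  · rintro ⟨u, v, h⟩
    exact ⟨_, _, h⟩

end equi

variable {Γ : Type}

/-- the predicates with number at least four -/
def Pr4 (x : XB Γ) (s : SS) (n : ℕ) : Prop :=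
  (n % 4 = 0 ∧ ∃ u v, u ≠ v ∧ US x.1 s = Nd x.1 u v ∧ ¬ bf x.1 v u ∧ x.1 (n / 4) u v = true) ∨
  (n % 4 = 1 ∧ ∃ u v, u ≠ v ∧ US x.1 s = Nd x.1 u v ∧ ¬ bf x.1 v u ∧ x.1 (n / 4) v u = true) ∨
  (n % 4 = 2 ∧ (US x.1 s).Subsingleton ∧ x.2.2 (n / 4) s.1 = true) ∨
  (n % 4 = 3 ∧ (US x.1 s).Subsingleton ∧ x.1 (n / 4) s.1 s.1 = true)

theorem PrS_four (x : XB Γ) (s : SS) (n : ℕ) : PrS x s (n + 4) ↔ Pr4 x s n := Iff.rfl

/-- the predicates only depend on the set -/
theorem PrS_congr {x : XB Γ} {s t : SS} (h : US x.1 s = US x.1 t) (n : ℕ) :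
    PrS x s n ↔ PrS x t n := by
  have h1 : (US x.1 t).Subsingleton → s.1 = t.1 := fun h2 =>
    h2 (h ▸ mem_US s) (mem_US t)
  obtain _ | _ | _ | _ | n := n
  · show (US x.1 s).Subsingleton ↔ (US x.1 t).Subsingleton
    rw [h]
  · show (∃ u v, u ≠ v ∧ US x.1 s = Nd x.1 u v) ↔ (∃ u v, u ≠ v ∧ US x.1 t = Nd x.1 u v)
    rw [h]
  · show (∃ u v, u ≠ v ∧ US x.1 s = Ch x.1 u v) ↔ (∃ u v, u ≠ v ∧ US x.1 t = Ch x.1 u v)
    rw [h]
  · show (∃ u v, bf x.1 v u ∧ US x.1 s = Fs x.1 u v) ↔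
      (∃ u v, bf x.1 v u ∧ US x.1 t = Fs x.1 u v)
    rw [h]
  · show Pr4 x s n ↔ Pr4 x t n
    unfold Pr4
    rw [h]
    refine or_congr Iff.rfl (or_congr Iff.rfl (or_congr ?_ ?_))
    · refine and_congr Iff.rfl (and_congr_right fun h2 => ?_)
      rw [h1 h2]
    · refine and_congr Iff.rfl (and_congr_right fun h2 => ?_)
      rw [h1 h2]

theorem PrS_equi {x x' : XB Γ} {θ : Equiv.Perm ℕ}
    (h : ∀ i m n, x.1 i (θ m) (θ n) = x'.1 i m n) (h' : ∀ i m, x.2.2 i (θ m) = x'.2.2 i m)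
    (s : SS) (n : ℕ) : PrS x' s n ↔ PrS x (ac θ s) n := by
  have hN : ∀ u v, US x'.1 s = Nd x'.1 u v ↔ US x.1 (ac θ s) = Nd x.1 (θ u) (θ v) := by
    intro u v
    rw [US_equi h, Nd_equi h, pre_inj]
  have hC : ∀ u v, US x'.1 s = Ch x'.1 u v ↔ US x.1 (ac θ s) = Ch x.1 (θ u) (θ v) := by
    intro u v
    rw [US_equi h, Ch_equi h, pre_inj]
  have hF : ∀ u v, US x'.1 s = Fs x'.1 u v ↔ US x.1 (ac θ s) = Fs x.1 (θ u) (θ v) := by
    intro u v
    rw [US_equi h, Fs_equi h, pre_inj]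
  have hS : (US x'.1 s).Subsingleton ↔ (US x.1 (ac θ s)).Subsingleton := by
    rw [US_equi h, pre_subs]
  have hne : ∀ u v : ℕ, u ≠ v ↔ θ u ≠ θ v := fun u v => θ.injective.ne_iff.symm
  obtain _ | _ | _ | _ | n := n
  · exact hS
  · show (∃ u v, u ≠ v ∧ US x'.1 s = Nd x'.1 u v) ↔
      (∃ u v, u ≠ v ∧ US x.1 (ac θ s) = Nd x.1 u v)
    rw [ex2_equi (θ := θ) (P := fun u v => u ≠ v ∧ US x.1 (ac θ s) = Nd x.1 u v)]
    exact exists_congr fun u => exists_congr fun v => and_congr (hne u v) (hN u v)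
  · show (∃ u v, u ≠ v ∧ US x'.1 s = Ch x'.1 u v) ↔
      (∃ u v, u ≠ v ∧ US x.1 (ac θ s) = Ch x.1 u v)
    rw [ex2_equi (θ := θ) (P := fun u v => u ≠ v ∧ US x.1 (ac θ s) = Ch x.1 u v)]
    exact exists_congr fun u => exists_congr fun v => and_congr (hne u v) (hC u v)
  · show (∃ u v, bf x'.1 v u ∧ US x'.1 s = Fs x'.1 u v) ↔
      (∃ u v, bf x.1 v u ∧ US x.1 (ac θ s) = Fs x.1 u v)
    rw [ex2_equi (θ := θ) (P := fun u v => bf x.1 v u ∧ US x.1 (ac θ s) = Fs x.1 u v)]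
    exact exists_congr fun u => exists_congr fun v => and_congr (bf_equi h v u) (hF u v)
  · show Pr4 x' s n ↔ Pr4 x (ac θ s) n
    unfold Pr4
    rw [ex2_equi (θ := θ) (P := fun u v => u ≠ v ∧ US x.1 (ac θ s) = Nd x.1 u v ∧
        ¬ bf x.1 v u ∧ x.1 (n / 4) u v = true),
      ex2_equi (θ := θ) (P := fun u v => u ≠ v ∧ US x.1 (ac θ s) = Nd x.1 u v ∧
        ¬ bf x.1 v u ∧ x.1 (n / 4) v u = true)]
    refine or_congr (and_congr Iff.rfl ?_) (or_congr (and_congr Iff.rfl ?_)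
      (or_congr (and_congr Iff.rfl (and_congr hS ?_)) (and_congr Iff.rfl (and_congr hS ?_))))
    · refine exists_congr fun u => exists_congr fun v => and_congr (hne u v)
        (and_congr (hN u v) (and_congr (not_congr (bf_equi h v u)) ?_))
      rw [h]
    · refine exists_congr fun u => exists_congr fun v => and_congr (hne u v)
        (and_congr (hN u v) (and_congr (not_congr (bf_equi h v u)) ?_))
      rw [h]
    · show x'.2.2 (n / 4) s.1 = true ↔ x.2.2 (n / 4) (θ s.1) = true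
      rw [h']
    · show x'.1 (n / 4) s.1 s.1 = true ↔ x.1 (n / 4) (θ s.1) (θ s.1) = true
      rw [h]

/-! ### Uniqueness, isomorphic codes, isomorphic structures -/

theorem cod_uni {x : XB Γ} {f f' : SS → ℕ} {y y' : XG Γ} (h : CodT x f y) (h' : CodT x f' y') :
    ∃ σ : Equiv.Perm ℕ, Isom σ y y' := by
  choose g hg using h.sur
  choose g' hg' using h'.sur
  have k1 : ∀ s, f' (g (f s)) = f' s := fun s => (h'.eq _ _).2 ((h.eq _ _).1 (hg (f s)))
  have k2 : ∀ s, f (g' (f' s)) = f s := fun s => (h.eq _ _).2 ((h'.eq _ _).1 (hg' (f' s)))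
  set σ : Equiv.Perm ℕ := ⟨fun m => f' (g m), fun m => f (g' m), fun m => by
    show f (g' (f' (g m))) = m
    rw [k2, hg], fun m => by
    show f' (g (f (g' m))) = m
    rw [k1, hg']⟩ with hσ
  have hs : ∀ s, σ (f s) = f' s := k1
  refine ⟨σ, fun m n => ?_, fun γ m => ?_, fun i m => ?_⟩
  · obtain ⟨s, rfl⟩ := h.sur m
    obtain ⟨t, rfl⟩ := h.sur n
    rw [hs, hs, Bool.eq_iff_iff, h'.lt, h.lt]
  · obtain ⟨⟨u, v, k⟩, rfl⟩ := h.sur m
    rw [hs, h'.act, h.act, hs]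
  · obtain ⟨s, rfl⟩ := h.sur m
    rw [hs, Bool.eq_iff_iff, h'.pr, h.pr]

theorem cod_trans {x : XB Γ} {f : SS → ℕ} {y y' : XG Γ} {σ : Equiv.Perm ℕ} (h : CodT x f y)
    (hσ : Isom σ y y') : CodT x (fun s => σ (f s)) y' := by
  refine ⟨fun m => ?_, fun s t => ?_, fun s t => ?_, fun γ u v k => ?_, fun n s => ?_⟩
  · obtain ⟨s, hs⟩ := h.sur (σ.symm m)
    exact ⟨s, by rw [hs, σ.apply_symm_apply]⟩
  · rw [σ.injective.eq_iff, h.eq]
  · rw [hσ.1, h.lt]
  · rw [hσ.2.1, h.act]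
  · rw [hσ.2.2, h.pr]

theorem cod_pull {x x' : XB Γ} {f : SS → ℕ} {y : XG Γ} {θ : Equiv.Perm ℕ} (h : CodT x f y)
    (hθ : IsoB θ x' x) : CodT x' (fun s => f (θ s.1, θ s.2.1, s.2.2)) y := by
  refine ⟨fun m => ?_, fun s t => ?_, fun s t => ?_, fun γ u v k => ?_, fun n s => ?_⟩
  · obtain ⟨⟨u, v, k⟩, hs⟩ := h.sur m
    refine ⟨(θ.symm u, θ.symm v, k), ?_⟩
    simp only [θ.apply_symm_apply]
    exact hs
  · rw [h.eq]
    exact (US_eq_equi hθ.1 s t).symm
  · rw [h.lt]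
    exact (US_lt_equi hθ.1 t s).symm
  · simp only
    rw [h.act, hθ.2.1, hθ.2.1]
  · rw [h.pr]
    exact (PrS_equi hθ.1 hθ.2.2 s n).symm

/-! ### Existence -/

section ex

variable [Group Γ] {x : XB Γ}

/-- the permutation given by `γ` -/
def pm (h : HD x) (γ : Γ) : Equiv.Perm ℕ where
  toFun := x.2.1 γ
  invFun := x.2.1 γ⁻¹
  left_inv m := by
    show x.2.1 γ⁻¹ (x.2.1 γ m) = m
    rw [← h.mul, inv_mul_cancel, h.one]
  right_inv m := by
    show x.2.1 γ (x.2.1 γ⁻¹ m) = m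
    rw [← h.mul, mul_inv_cancel, h.one]

theorem pm_auto (h : HD x) (γ : Γ) (i m n : ℕ) : x.1 i (pm h γ m) (pm h γ n) = x.1 i m n :=
  h.auto γ i m n

theorem US_act_eq (h : HD x) (γ : Γ) (s t : SS) :
    US x.1 s = US x.1 t ↔ US x.1 (ac (x.2.1 γ) s) = US x.1 (ac (x.2.1 γ) t) :=
  US_eq_equi (θ := pm h γ) (pm_auto h γ) s t

theorem US_act_lt (h : HD x) (γ : Γ) (s t : SS) :
    US x.1 s ⊂ US x.1 t ↔ US x.1 (ac (x.2.1 γ) s) ⊂ US x.1 (ac (x.2.1 γ) t) :=
  US_lt_equi (θ := pm h γ) (pm_auto h γ) s t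

/-- indices of the same set -/
def sd (x : XB Γ) : Setoid SS where
  r s t := US x.1 s = US x.1 t
  iseqv := ⟨fun _ => rfl, fun h => h.symm, fun h h' => h.trans h'⟩

open Classical in
theorem cod_ex (h : HD x) : ∃ f y, CodT x f y := by
  have hinf : Infinite (Quotient (sd x)) := by
    refine Infinite.of_injective (fun u : ℕ => (Quotient.mk (sd x) (u, u, 0))) ?_
    intro u v huv
    have h1 : US x.1 (u, u, 0) = US x.1 (v, v, 0) := Quotient.exact huv
    rw [US_leaf, US_leaf] at h1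
    exact Set.singleton_injective h1
  obtain ⟨hd⟩ := nonempty_denumerable (Quotient (sd x))
  set e : Quotient (sd x) ≃ ℕ := Denumerable.eqv _ with he
  set f : SS → ℕ := fun s => e (Quotient.mk (sd x) s) with hf
  set g : ℕ → SS := fun m => (e.symm m).out with hg
  have hfe : ∀ s t, f s = f t ↔ US x.1 s = US x.1 t := by
    intro s t
    constructor
    · intro h1
      exact Quotient.exact (e.injective h1)
    · intro h1
      exact congrArg e (Quotient.sound (s := sd x) h1)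
  have hgf : ∀ s, US x.1 (g (f s)) = US x.1 s := by
    intro s
    rw [← hfe]
    show e (Quotient.mk (sd x) ((e.symm (e (Quotient.mk (sd x) s))).out)) = _
    rw [Quotient.out_eq, e.apply_symm_apply]
  refine ⟨f, (fun m n => decide (US x.1 (g n) ⊂ US x.1 (g m)),
    fun γ m => f (ac (x.2.1 γ) (g m)), fun n m => decide (PrS x (g m) n)), ?_⟩
  refine ⟨fun m => ?_, hfe, fun s t => ?_, fun γ u v k => ?_, fun n s => ?_⟩
  · refine ⟨g m, ?_⟩
    show e (Quotient.mk (sd x) ((e.symm m).out)) = m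
    rw [Quotient.out_eq, e.apply_symm_apply]
  · simp only [decide_eq_true_eq, hgf]
  · show f (ac (x.2.1 γ) (g (f (u, v, k)))) = f (ac (x.2.1 γ) (u, v, k))
    rw [hfe, ← US_act_eq h]
    exact hgf _
  · simp only [decide_eq_true_eq]
    exact PrS_congr (hgf s) n

/-- the codes are semilinear orders with an action -/
theorem cod_semi (hF : TDF x.1) {f : SS → ℕ} {y : XG Γ} (h : HD x) (hc : CodT x f y) : TO y := by
  refine ⟨fun m => ?_, fun m n k => ?_, fun m n k => ?_, fun m => ?_, fun γ δ m => ?_,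
    fun γ m n => ?_⟩
  · obtain ⟨s, rfl⟩ := hc.sur m
    rw [Bool.eq_false_iff, Ne, hc.lt]
    exact fun h1 => h1.2 subset_rfl
  · obtain ⟨s, rfl⟩ := hc.sur m
    obtain ⟨t, rfl⟩ := hc.sur n
    obtain ⟨w, rfl⟩ := hc.sur k
    rw [hc.lt, hc.lt, hc.lt]
    exact fun h1 h2 => h2.trans h1
  · obtain ⟨s, rfl⟩ := hc.sur m
    obtain ⟨t, rfl⟩ := hc.sur n
    obtain ⟨w, rfl⟩ := hc.sur k
    rw [hc.lt, hc.lt, hc.lt, hc.lt, hc.eq]
    intro h1 h2
    rcases hF.lam s t w.1 (h1.1 (mem_US w)) (h2.1 (mem_US w)) with h3 | h3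
    · by_cases h4 : US x.1 s = US x.1 t
      · exact Or.inl h4
      · exact Or.inr (Or.inr (h3.ssubset_of_ne h4))
    · by_cases h4 : US x.1 s = US x.1 t
      · exact Or.inl h4
      · exact Or.inr (Or.inl (h3.ssubset_of_ne (Ne.symm h4)))
  · obtain ⟨⟨u, v, k⟩, rfl⟩ := hc.sur m
    rw [hc.act, h.one, h.one]
  · obtain ⟨⟨u, v, k⟩, rfl⟩ := hc.sur m
    rw [hc.act, hc.act, hc.act, h.mul, h.mul]
  · obtain ⟨⟨u, v, k⟩, rfl⟩ := hc.sur m
    obtain ⟨⟨u', v', k'⟩, rfl⟩ := hc.sur n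
    rw [hc.act, hc.act, hc.lt, hc.lt]
    exact (US_act_lt h γ (u', v', k') (u, v, k)).1

end ex

end Pool.Agent.Y641.TH
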